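import Mathlib

open Complex Set Filter Topology Metric

namespace Pool.Agent.Results.MP_9f54b8_an.AreaIneqFails

/-!
# The area inequality for weighted geometric means in the class `Σ` fails

For `f, g` in the class `Σ` and `F = f^{1-α} g^α = z + ∑_{n ≥ 0} A_n z^{-n}` (near infinity) the
question is whether `∑_{n ≥ 1} n |A_n|^2 ≤ 1`.  We show that this fails for `α = 1/2`, even for
functions `f, g` that have no zeros in `|z| > 1` and are odd (in particular `b_0 = c_0 = 0`).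

Construction.  Let `k(ζ) = (u^2 - 1 + log u) / 6` with `u = (1 + ζ)/(1 - ζ)`.  In the coordinate `u`
(which runs through the right half plane) the derivative is `(2 u + 1/u) / 6`, which has positive
real part, so `k` is univalent in the unit disc.  Here
`k(ζ) = ζ + (4/3) ζ^2 + (19/9) ζ^3 + ...`.
Put `f(z) = k(z^{-2})^{-1/2}` and `g(z) = -i f(i z)`.  Then
`F(z) = z - (11/18) z^{-3} + ...`, so `3 |A_3|^2 = 121/108 > 1`.
-/

/-- `InSigma f b`: the function `f` belongs to the class `Σ` and has Laurent coefficients `b`.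
That is, `f` is analytic and univalent (injective) in `{z : 1 < |z|}` and
`f z = z + ∑_{n ≥ 0} b n * z^{-n}` for every `z` with `1 < |z|`. -/
structure InSigma (f : ℂ → ℂ) (b : ℕ → ℂ) : Prop where
  analytic : AnalyticOnNhd ℂ f {z : ℂ | 1 < ‖z‖}
  univalent : Set.InjOn f {z : ℂ | 1 < ‖z‖}
  expansion : ∀ z : ℂ, 1 < ‖z‖ → HasSum (fun n : ℕ => b n / z ^ n) (f z - z)

/-- `IsMeanCoeff α f g A`: for all sufficiently large `|z|` the weighted geometric mean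
`F(z) = z * (f z / z)^{1-α} * (g z / z)^α` has the expansion `F(z) = z + ∑_{n ≥ 0} A n * z^{-n}`.
The powers are principal powers; since `f z / z` and `g z / z` tend to `1` as `z → ∞` for `f, g` in
the class `Σ`, near infinity these are the analytic branches that are equal to `1` at infinity. -/
def IsMeanCoeff (α : ℝ) (f g : ℂ → ℂ) (A : ℕ → ℂ) : Prop :=
  ∃ R : ℝ, 1 ≤ R ∧ ∀ z : ℂ, R < ‖z‖ →
    HasSum (fun n : ℕ => A n / z ^ n)
      (z * (f z / z) ^ ((1 - α : ℝ) : ℂ) * (g z / z) ^ ((α : ℝ) : ℂ) - z)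

/-! ## The function `k` -/


/-- the right half plane coordinate -/
noncomputable def uu (ζ : ℂ) : ℂ := (1 + ζ) / (1 - ζ)

/-- the close-to-convex function in the half-plane coordinate -/
noncomputable def kap (u : ℂ) : ℂ := (u ^ 2 - 1 + Complex.log u) / 6

noncomputable def kk (ζ : ℂ) : ℂ := kap (uu ζ)

lemma one_sub_ne {ζ : ℂ} (h : ‖ζ‖ < 1) : (1 : ℂ) - ζ ≠ 0 := by
  intro h0
  have : ζ = 1 := by linear_combination -h0
  rw [this] at h
  simp at h

lemma uu_re {ζ : ℂ} : (uu ζ).re = (1 - normSq ζ) / normSq (1 - ζ) := by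
  unfold uu
  rw [Complex.div_re]
  simp only [add_re, one_re, sub_re, add_im, one_im, sub_im, normSq_apply]
  ring

lemma uu_im {ζ : ℂ} : (uu ζ).im = 2 * ζ.im / normSq (1 - ζ) := by
  unfold uu
  rw [Complex.div_im]
  simp only [add_re, one_re, sub_re, add_im, one_im, sub_im, normSq_apply]
  ring

lemma uu_re_pos {ζ : ℂ} (h : ‖ζ‖ < 1) : 0 < (uu ζ).re := by
  rw [uu_re]
  apply div_pos
  · rw [Complex.normSq_eq_norm_sq]
    nlinarith [norm_nonneg ζ]
  · exact Complex.normSq_pos.mpr (one_sub_ne h)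

lemma slit_of_re {u : ℂ} (h : 0 < u.re) : u ∈ slitPlane := Or.inl h

lemma kap_hasDeriv {u : ℂ} (h : 0 < u.re) : HasDerivAt kap ((2 * u + u⁻¹) / 6) u := by
  unfold kap
  have h1 : HasDerivAt (fun u : ℂ => u ^ 2 - 1 + Complex.log u) (2 * u + u⁻¹) u := by
    have := ((hasDerivAt_pow 2 u).sub_const 1).add (Complex.hasDerivAt_log (slit_of_re h))
    refine this.congr_deriv ?_
    norm_num
  exact h1.div_const 6

lemma kap_injOn : Set.InjOn kap {u | 0 < u.re} := by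
  intro u₁ h1 u₂ h2 heq
  by_contra hne
  have hd : u₁ - u₂ ≠ 0 := sub_ne_zero.mpr hne
  simp only [Set.mem_ofPred_eq] at h1 h2
  set γ : ℝ → ℂ := fun t => u₂ + (t : ℂ) * (u₁ - u₂) with hγ
  have hγre : ∀ t ∈ Icc (0:ℝ) 1, 0 < (γ t).re := by
    intro t ht
    have : (γ t).re = (1 - t) * u₂.re + t * u₁.re := by
      simp [hγ]
      ring
    rw [this]
    rcases ht with ⟨h0, h1'⟩
    rcases eq_or_lt_of_le h0 with h | h
    · rw [← h]; linarith
    · nlinarith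
  have hder : ∀ t ∈ Icc (0:ℝ) 1, HasDerivAt (fun t : ℝ => (kap (γ t) / (u₁ - u₂)).re)
      ((2 * γ t + (γ t)⁻¹) / 6).re t := by
    intro t ht
    have hg : HasDerivAt γ (u₁ - u₂) t := by
      have := ((hasDerivAt_id t).ofReal_comp.mul_const (u₁ - u₂)).const_add u₂
      simpa [hγ] using this
    have hk := (kap_hasDeriv (hγre t ht)).comp t hg
    have hk2 := hk.div_const (u₁ - u₂)
    have hk3 : HasDerivAt (fun t : ℝ => kap (γ t) / (u₁ - u₂)) ((2 * γ t + (γ t)⁻¹) / 6) t := by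
      refine hk2.congr_deriv ?_
      rw [mul_div_assoc, div_self hd, mul_one]
    have := Complex.reCLM.hasFDerivAt.comp_hasDerivAt t hk3
    exact this
  obtain ⟨c, hc, hc0⟩ := exists_hasDerivAt_eq_zero (f := fun t : ℝ => (kap (γ t) / (u₁ - u₂)).re)
    (f' := fun t => ((2 * γ t + (γ t)⁻¹) / 6).re) (zero_lt_one)
    (fun t ht => (hder t ht).continuousAt.continuousWithinAt)
    (by simp [hγ, heq]) (fun t ht => hder t (Ioo_subset_Icc_self ht))
  have hpos := hγre c (Ioo_subset_Icc_self hc)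
  have : ((2 * γ c + (γ c)⁻¹) / 6).re = (2 * (γ c).re + (γ c).re / normSq (γ c)) / 6 := by
    have : (6 : ℂ) = ((6 : ℝ) : ℂ) := by norm_num
    rw [this, Complex.div_ofReal_re, Complex.add_re, Complex.inv_re]
    simp
  rw [this] at hc0
  have hns : 0 < normSq (γ c) := Complex.normSq_pos.mpr (by
    intro h0
    rw [h0] at hpos
    simp at hpos)
  have : 0 < (γ c).re / normSq (γ c) := div_pos hpos hns
  linarith

lemma uu_injOn : Set.InjOn uu (ball 0 1) := by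
  intro a ha b hb hab
  simp only [mem_ball_zero_iff] at ha hb
  unfold uu at hab
  rw [div_eq_div_iff (one_sub_ne ha) (one_sub_ne hb)] at hab
  linear_combination hab / 2

lemma kk_injOn : Set.InjOn kk (ball 0 1) := by
  intro a ha b hb hab
  have h1 := kap_injOn (uu_re_pos (by simpa using ha)) (uu_re_pos (by simpa using hb)) hab
  exact uu_injOn ha hb h1

lemma kk_zero : kk 0 = 0 := by simp [kk, uu, kap]

lemma kk_diff : DifferentiableOn ℂ kk (ball 0 1) := by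
  intro z hz
  have hz' : ‖z‖ < 1 := by simpa using hz
  have h1 : DifferentiableAt ℂ uu z := by
    unfold uu
    exact (by fun_prop : DifferentiableAt ℂ (fun ζ : ℂ => 1 + ζ) z).div (by fun_prop) (one_sub_ne hz')
  have h2 : DifferentiableAt ℂ kap (uu z) := (kap_hasDeriv (uu_re_pos hz')).differentiableAt
  exact (h2.comp z h1).differentiableWithinAt


lemma uu_zero : uu 0 = 1 := by simp [uu]

lemma kk_deriv_zero : HasDerivAt kk 1 0 := by
  have h1 : HasDerivAt uu 2 0 := by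
    unfold uu
    have := ((hasDerivAt_id (0:ℂ)).const_add 1).div ((hasDerivAt_id (0:ℂ)).const_sub 1) (by simp)
    refine this.congr_deriv ?_
    norm_num
  have h2 : HasDerivAt kap ((2 * uu 0 + (uu 0)⁻¹) / 6) (uu 0) := kap_hasDeriv (by simp [uu_zero])
  have := h2.comp (0:ℂ) h1
  refine this.congr_deriv ?_
  rw [uu_zero]
  norm_num

/-- `k(ζ)/ζ`, with the value `1` at `0`. -/
noncomputable def KK (ζ : ℂ) : ℂ := dslope kk 0 ζ

lemma KK_zero : KK 0 = 1 := by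
  unfold KK
  rw [dslope_same, kk_deriv_zero.deriv]

lemma KK_of_ne {ζ : ℂ} (h : ζ ≠ 0) : KK ζ = kk ζ / ζ := by
  unfold KK
  rw [dslope_of_ne _ h, slope_def_field, kk_zero]
  simp

lemma KK_diff : DifferentiableOn ℂ KK (ball 0 1) :=
  (Complex.differentiableOn_dslope (ball_mem_nhds 0 one_pos)).mpr kk_diff

lemma kk_im {ζ : ℂ} : (kk ζ).im = (2 * (uu ζ).re * (uu ζ).im + (uu ζ).arg) / 6 := by
  unfold kk kap
  have : (6 : ℂ) = ((6 : ℝ) : ℂ) := by norm_num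
  rw [this, Complex.div_ofReal_im]
  simp [pow_two, Complex.log_im]
  ring

lemma KK_slit {ζ : ℂ} (h : ‖ζ‖ < 1) : KK ζ ∈ slitPlane := by
  rcases eq_or_ne ζ 0 with h0 | h0
  · rw [h0, KK_zero]; exact one_mem_slitPlane
  by_contra hns
  have hns' : (KK ζ).re ≤ 0 ∧ (KK ζ).im = 0 := by
    rw [Complex.mem_slitPlane_iff] at hns
    push Not at hns
    exact hns
  set c : ℝ := -(KK ζ).re with hc
  have hc0 : 0 ≤ c := by rw [hc]; linarith [hns'.1]
  have hKc : KK ζ = -(c : ℂ) := by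
    apply Complex.ext <;> simp [hc, hns'.2]
  have hk : kk ζ = -(c : ℂ) * ζ := by
    rw [← hKc, KK_of_ne h0, div_mul_cancel₀ _ h0]
  have him : (kk ζ).im = -c * ζ.im := by rw [hk]; simp
  rw [kk_im] at him
  have hre := uu_re_pos h
  have hns1 : 0 < normSq (1 - ζ) := Complex.normSq_pos.mpr (one_sub_ne h)
  rcases lt_trichotomy ζ.im 0 with hi | hi | hi
  · -- negative imaginary part
    have hui : (uu ζ).im < 0 := by
      rw [uu_im]; exact div_neg_of_neg_of_pos (by linarith) hns1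
    have harg : (uu ζ).arg < 0 := Complex.arg_neg_iff.mpr hui
    have h1 : 2 * (uu ζ).re * (uu ζ).im < 0 := by nlinarith
    have h2 : 0 ≤ -c * ζ.im := by nlinarith
    linarith
  · -- real ζ
    have hζ : ζ = ((ζ.re : ℝ) : ℂ) := by
      apply Complex.ext <;> simp [hi]
    set x : ℝ := ζ.re with hx
    have hx1 : |x| < 1 := by
      rw [hζ] at h
      simpa using h
    have hx0 : x ≠ 0 := by
      intro hx0
      rw [hx0] at hζ
      exact h0 (by simpa using hζ)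
    have hxl := (abs_lt.mp hx1).1
    have hxr := (abs_lt.mp hx1).2
    have hu : uu ζ = (((1 + x) / (1 - x) : ℝ) : ℂ) := by
      rw [hζ]; unfold uu; push_cast; rfl
    have hkr : kk ζ = (((((1 + x) / (1 - x)) ^ 2 - 1 + Real.log ((1 + x) / (1 - x))) / 6 : ℝ) : ℂ) := by
      unfold kk kap
      rw [hu, ← Complex.ofReal_log (div_nonneg (by linarith) (by linarith))]
      push_cast
      rfl
    have hkc : (kk ζ).re = -c * x := by
      rw [hk]; simp [hi]; left; rfl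
    rw [hkr, Complex.ofReal_re] at hkc
    rcases lt_or_gt_of_ne hx0 with hlt | hgt
    · have hu1 : (1 + x) / (1 - x) < 1 := by rw [div_lt_one (by linarith)]; linarith
      have hu0 : 0 < (1 + x) / (1 - x) := div_pos (by linarith) (by linarith)
      have hlog := Real.log_neg hu0 hu1
      have : 0 ≤ -c * x := by nlinarith
      nlinarith
    · have hu1 : 1 < (1 + x) / (1 - x) := by rw [one_lt_div (by linarith)]; linarith
      have hlog := Real.log_pos hu1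
      have : -c * x ≤ 0 := by nlinarith
      nlinarith
  · have hui : 0 < (uu ζ).im := by
      rw [uu_im]; exact div_pos (by linarith) hns1
    have harg : 0 ≤ (uu ζ).arg := Complex.arg_nonneg_iff.mpr hui.le
    have h1 : 0 < 2 * (uu ζ).re * (uu ζ).im := by positivity
    have h2 : -c * ζ.im ≤ 0 := by nlinarith
    linarith

lemma KK_ne {ζ : ℂ} (h : ‖ζ‖ < 1) : KK ζ ≠ 0 := slitPlane_ne_zero (KK_slit h)


/-- Coefficients of `z φ(z^{-2}) - z` in powers of `z⁻¹`. -/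
noncomputable def oc (φ : ℂ → ℂ) (n : ℕ) : ℂ :=
  if Odd n then ((((n + 1) / 2).factorial : ℂ))⁻¹ * iteratedDeriv ((n + 1) / 2) φ 0 else 0

lemma oc_hasSum {φ : ℂ → ℂ} (hφ : DifferentiableOn ℂ φ (ball 0 1)) (h0 : φ 0 = 1) {z : ℂ}
    (hz : 1 < ‖z‖) :
    HasSum (fun n => oc φ n / z ^ n) (z * φ ((z ^ 2)⁻¹) - z) := by
  have hz0 : z ≠ 0 := by
    intro h; rw [h] at hz; simp at hz; linarith
  have hmem : (z ^ 2)⁻¹ ∈ ball (0:ℂ) 1 := by
    rw [mem_ball_zero_iff, norm_inv, norm_pow]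
    exact inv_lt_one_of_one_lt₀ (one_lt_pow₀ hz two_ne_zero)
  have h1 := Complex.hasSum_taylorSeries_on_ball hφ hmem
  have h2 := ((hasSum_nat_add_iff' 1).mpr h1).mul_left z
  have hinj : Function.Injective (fun j : ℕ => 2 * j + 1) := by
    intro a b h; simp only at h; omega
  rw [← hinj.hasSum_iff (f := fun n => oc φ n / z ^ n)]
  · have e2 : z * (φ (z ^ 2)⁻¹ - ∑ i ∈ Finset.range 1, ((i.factorial : ℂ))⁻¹ •
        ((z ^ 2)⁻¹ - 0) ^ i • iteratedDeriv i φ 0) = z * φ ((z ^ 2)⁻¹) - z := by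
      simp [h0]
      ring
    rw [e2] at h2
    convert! h2 using 1
    funext j
    have hodd : Odd (2 * j + 1) := ⟨j, rfl⟩
    have hdiv : (2 * j + 1 + 1) / 2 = j + 1 := by omega
    have hpow : ((z ^ 2)⁻¹) ^ (j + 1) = (z ^ (2 * j + 1) * z)⁻¹ := by
      rw [inv_pow, ← pow_mul, ← pow_succ]
      congr 2
    simp only [Function.comp_apply, oc, hodd, if_true, hdiv, sub_zero, smul_eq_mul]
    rw [hpow]
    field_simp
  · intro x hx
    have : ¬ Odd x := by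
      rintro ⟨k, hk⟩
      exact hx ⟨k, hk.symm⟩
    simp [oc, this]

lemma coeff_two {φ : ℂ → ℂ} (hφ : AnalyticAt ℂ φ 0) {c : ℂ}
    (hlim : Tendsto (fun ζ => (φ ζ - 1) / ζ ^ 2) (𝓝[≠] 0) (𝓝 c)) :
    iteratedDeriv 2 φ 0 / 2 = c := by
  have hp := (hφ.hasFPowerSeriesAt).isBigO_sub_partialSum_pow 3
  set c0 := iteratedDeriv 0 φ 0 / (Nat.factorial 0 : ℕ) with hc0
  set c1 := iteratedDeriv 1 φ 0 / (Nat.factorial 1 : ℕ) with hc1
  set c2 := iteratedDeriv 2 φ 0 / (Nat.factorial 2 : ℕ) with hc2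
  have hE : (fun y : ℂ => φ y - (c0 + c1 * y + c2 * y ^ 2)) =O[𝓝 0] fun y => ‖y‖ ^ 3 := by
    convert! hp using 2 with y
    simp only [zero_add, FormalMultilinearSeries.partialSum, Finset.sum_range_succ,
      Finset.sum_range_zero, FormalMultilinearSeries.ofScalars_apply_eq, smul_eq_mul]
    rw [hc0, hc1, hc2]
    ring
  have hE2 : Tendsto (fun y : ℂ => (φ y - (c0 + c1 * y + c2 * y ^ 2)) / y ^ 2) (𝓝[≠] 0) (𝓝 0) := by
    have h3 : (fun y : ℂ => φ y - (c0 + c1 * y + c2 * y ^ 2)) =o[𝓝 0] fun y => y ^ 2 := by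
      refine hE.trans_isLittleO ?_
      have : (fun y : ℂ => ‖y‖ ^ 3) =o[𝓝 0] fun y : ℂ => ‖y‖ ^ 2 := by
        have h5 : (fun x : ℝ => x ^ 3) =o[𝓝 0] fun x : ℝ => x ^ 2 :=
          Asymptotics.isLittleO_pow_pow (by norm_num)
        exact h5.comp_tendsto (tendsto_norm_zero)
      refine this.trans_isBigO ?_
      refine Asymptotics.IsBigO.of_bound 1 (Eventually.of_forall fun y => ?_)
      simp
    exact (h3.tendsto_div_nhds_zero).mono_left nhdsWithin_le_nhds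
  have hid : Tendsto (fun y : ℂ => y) (𝓝[≠] (0:ℂ)) (𝓝 0) := nhdsWithin_le_nhds
  have hne : ∀ᶠ y : ℂ in 𝓝[≠] (0:ℂ), y ≠ 0 := eventually_mem_nhdsWithin
  have hP : Tendsto (fun y : ℂ => ((c0 - 1) + c1 * y + c2 * y ^ 2) / y ^ 2) (𝓝[≠] 0) (𝓝 c) := by
    have := hlim.sub hE2
    rw [sub_zero] at this
    refine this.congr' ?_
    filter_upwards [hne] with y hy
    field_simp
    ring
  -- c0 = 1
  have hc0' : c0 - 1 = 0 := by
    have h1 : Tendsto (fun y : ℂ => ((c0 - 1) + c1 * y + c2 * y ^ 2) / y ^ 2 * y ^ 2) (𝓝[≠] 0)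
      (𝓝 (c * 0 ^ 2)) := hP.mul (hid.pow 2)
    have h2 : Tendsto (fun y : ℂ => (c0 - 1) + c1 * y + c2 * y ^ 2) (𝓝[≠] 0)
      (𝓝 ((c0 - 1) + c1 * 0 + c2 * 0 ^ 2)) :=
      (tendsto_const_nhds.add (hid.const_mul c1)).add ((hid.pow 2).const_mul c2)
    have h3 := tendsto_nhds_unique (h1.congr' ?_) h2
    · simpa using h3.symm
    · filter_upwards [hne] with y hy
      field_simp
  rw [hc0'] at hP
  have hc1' : c1 = 0 := by
    have h1 : Tendsto (fun y : ℂ => ((0 : ℂ) + c1 * y + c2 * y ^ 2) / y ^ 2 * y) (𝓝[≠] 0)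
      (𝓝 (c * 0)) := hP.mul hid
    have h2 : Tendsto (fun y : ℂ => c1 + c2 * y) (𝓝[≠] 0) (𝓝 (c1 + c2 * 0)) :=
      tendsto_const_nhds.add (hid.const_mul c2)
    have h3 := tendsto_nhds_unique (h1.congr' ?_) h2
    · simpa using h3.symm
    · filter_upwards [hne] with y hy
      field_simp
      ring
  rw [hc1'] at hP
  have h4 := tendsto_nhds_unique (hP.congr' (f₂ := fun _ => c2) ?_) tendsto_const_nhds
  · rw [h4, hc2]
    norm_num
  · filter_upwards [hne] with y hy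
    field_simp
    ring


lemma log_uu {ζ : ℂ} (h : ‖ζ‖ < 1) :
    Complex.log (uu ζ) = Complex.log (1 + ζ) - Complex.log (1 - ζ) := by
  have hre1 : 0 < (1 + ζ).re := by
    have := (abs_le.mp (Complex.abs_re_le_norm ζ)).1
    simp only [add_re, one_re]; linarith
  have hre2 : 0 < (1 - ζ).re := by
    have := (abs_le.mp (Complex.abs_re_le_norm ζ)).2
    simp only [sub_re, one_re]; linarith
  have hne1 : (1 + ζ) ≠ 0 := by
    intro h0; rw [h0] at hre1; simp at hre1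
  have hne2 : (1 - ζ) ≠ 0 := one_sub_ne h
  have ha1 := abs_lt.mp (Complex.abs_arg_lt_pi_div_two_iff.mpr (Or.inl hre1))
  have ha2 := abs_lt.mp (Complex.abs_arg_lt_pi_div_two_iff.mpr (Or.inl hre2))
  have hapi : (1 - ζ).arg ≠ Real.pi := by
    intro h0; rw [h0] at ha2; linarith [Real.pi_pos]
  have hinv : (1 - ζ)⁻¹.arg = -(1 - ζ).arg := by
    rw [Complex.arg_inv, if_neg hapi]
  unfold uu
  rw [div_eq_mul_inv, Complex.log_mul hne1 (inv_ne_zero hne2) ?_, Complex.log_inv _ hapi]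
  · ring
  · rw [hinv]
    constructor <;> linarith [ha1.1, ha1.2, ha2.1, ha2.2]

lemma tendsto_log_part :
    Tendsto (fun ζ : ℂ => (Complex.log (uu ζ) - 2 * ζ) / ζ ^ 3) (𝓝[≠] 0) (𝓝 (2 / 3)) := by
  have hO := Complex.log_sub_logTaylor_isBigO 3
  have hE : (fun z : ℂ => Complex.log (1 + z) - (z - z ^ 2 / 2 + z ^ 3 / 3)) =o[𝓝 0]
      fun z => z ^ 3 := by
    have h1 : (fun z : ℂ => Complex.log (1 + z) - (z - z ^ 2 / 2 + z ^ 3 / 3)) =O[𝓝 0]
      fun z => z ^ 4 := by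
      convert! hO using 2 with z
      simp only [logTaylor_succ, logTaylor_zero]
      norm_num
      ring
    exact h1.trans_isLittleO (Asymptotics.isLittleO_pow_pow (by norm_num))
  have hE' : (fun z : ℂ => Complex.log (1 - z) - (-z - z ^ 2 / 2 - z ^ 3 / 3)) =o[𝓝 0]
      fun z => z ^ 3 := by
    have hneg : Tendsto (fun z : ℂ => -z) (𝓝 0) (𝓝 0) := by
      simpa using (continuous_neg (G := ℂ)).tendsto 0
    have := hE.comp_tendsto hneg
    have h2 : (fun z : ℂ => Complex.log (1 - z) - (-z - z ^ 2 / 2 - z ^ 3 / 3)) =o[𝓝 0]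
      fun z : ℂ => (-z) ^ 3 := by
      convert! this using 2 with z
      simp only [Function.comp_apply]
      ring_nf
    refine h2.trans_isBigO ?_
    refine Asymptotics.IsBigO.of_bound 1 (Eventually.of_forall fun y => ?_)
    simp
  have hD := (hE.sub hE').tendsto_div_nhds_zero.mono_left
    (nhdsWithin_le_nhds : 𝓝[≠] (0:ℂ) ≤ 𝓝 0)
  have hD2 := hD.add_const (2 / 3 : ℂ)
  rw [zero_add] at hD2
  refine hD2.congr' ?_
  have hne : ∀ᶠ y : ℂ in 𝓝[≠] (0:ℂ), y ≠ 0 := eventually_mem_nhdsWithin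
  have hb : ∀ᶠ y : ℂ in 𝓝[≠] (0:ℂ), y ∈ ball (0:ℂ) 1 :=
    nhdsWithin_le_nhds (ball_mem_nhds 0 one_pos)
  filter_upwards [hne, hb] with y hy hyb
  rw [log_uu (by simpa using hyb)]
  field_simp
  ring

lemma tendsto_KK : Tendsto (fun ζ : ℂ => (KK ζ - 1 - 4 / 3 * ζ) / ζ ^ 2) (𝓝[≠] 0)
    (𝓝 (19 / 9)) := by
  have hid : Tendsto (fun y : ℂ => y) (𝓝[≠] (0:ℂ)) (𝓝 0) := nhdsWithin_le_nhds
  have h1 : Tendsto (fun ζ : ℂ => 2 / 3 * ((3 - 2 * ζ) / (1 - ζ) ^ 2) +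
      1 / 6 * ((Complex.log (uu ζ) - 2 * ζ) / ζ ^ 3)) (𝓝[≠] 0)
      (𝓝 (2 / 3 * ((3 - 2 * 0) / (1 - 0) ^ 2) + 1 / 6 * (2 / 3))) := by
    refine Tendsto.add (Tendsto.const_mul _ (Tendsto.div ?_ ?_ (by norm_num)))
      (tendsto_log_part.const_mul _)
    · exact tendsto_const_nhds.sub (hid.const_mul 2)
    · exact (tendsto_const_nhds.sub hid).pow 2
  have e : (2 / 3 * ((3 - 2 * 0) / (1 - 0) ^ 2) + 1 / 6 * (2 / 3) : ℂ) = 19 / 9 := by norm_num
  rw [e] at h1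
  refine h1.congr' ?_
  have hne : ∀ᶠ y : ℂ in 𝓝[≠] (0:ℂ), y ≠ 0 := eventually_mem_nhdsWithin
  have hb : ∀ᶠ y : ℂ in 𝓝[≠] (0:ℂ), y ∈ ball (0:ℂ) 1 :=
    nhdsWithin_le_nhds (ball_mem_nhds 0 one_pos)
  filter_upwards [hne, hb] with y hy hyb
  have h1y : (1 : ℂ) - y ≠ 0 := one_sub_ne (by simpa using hyb)
  rw [KK_of_ne hy]
  unfold kk kap
  have hu2 : (uu y) ^ 2 = (1 + y) ^ 2 / (1 - y) ^ 2 := by unfold uu; rw [div_pow]
  rw [hu2]
  field_simp
  ring

/-- the product `K(ζ)^{-1/4} K(-ζ)^{-1/4}` -/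
noncomputable def GG (ζ : ℂ) : ℂ := (KK ζ) ^ (-(1 / 4) : ℂ) * (KK (-ζ)) ^ (-(1 / 4) : ℂ)

lemma GG_zero : GG 0 = 1 := by simp [GG, KK_zero]

lemma neg_mem {ζ : ℂ} (h : ζ ∈ ball (0:ℂ) 1) : -ζ ∈ ball (0:ℂ) 1 := by simpa using h

lemma KK_diffAt {ζ : ℂ} (h : ζ ∈ ball (0:ℂ) 1) : DifferentiableAt ℂ KK ζ :=
  KK_diff.differentiableAt (isOpen_ball.mem_nhds h)

lemma KKneg_diffAt {ζ : ℂ} (h : ζ ∈ ball (0:ℂ) 1) : DifferentiableAt ℂ (fun z => KK (-z)) ζ :=
  (KK_diffAt (neg_mem h)).comp ζ differentiableAt_id.neg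

lemma GG_diff : DifferentiableOn ℂ GG (ball 0 1) := by
  intro z hz
  have h1 : DifferentiableAt ℂ (fun z => (KK z) ^ (-(1 / 4) : ℂ)) z :=
    (KK_diffAt hz).cpow_const (KK_slit (by simpa using hz))
  have h2 : DifferentiableAt ℂ (fun z => (KK (-z)) ^ (-(1 / 4) : ℂ)) z :=
    (KKneg_diffAt hz).cpow_const (KK_slit (by simpa using hz))
  exact (h1.mul h2).differentiableWithinAt

lemma GG_pow {ζ : ℂ} (h : ‖ζ‖ < 1) : (GG ζ) ^ 4 * (KK ζ * KK (-ζ)) = 1 := by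
  have hn : ‖-ζ‖ < 1 := by simpa using h
  have h1 : ((KK ζ) ^ (-(1 / 4) : ℂ)) ^ 4 = (KK ζ)⁻¹ := by
    rw [← Complex.cpow_mul_ofNat]
    rw [show (-(1 / 4) * OfNat.ofNat 4 : ℂ) = -1 by norm_num, Complex.cpow_neg_one]
  have h2 : ((KK (-ζ)) ^ (-(1 / 4) : ℂ)) ^ 4 = (KK (-ζ))⁻¹ := by
    rw [← Complex.cpow_mul_ofNat]
    rw [show (-(1 / 4) * OfNat.ofNat 4 : ℂ) = -1 by norm_num, Complex.cpow_neg_one]
  unfold GG
  rw [mul_pow, h1, h2]
  have := KK_ne h
  have := KK_ne hn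
  field_simp

lemma tendsto_GG : Tendsto (fun ζ : ℂ => (GG ζ - 1) / ζ ^ 2) (𝓝[≠] 0) (𝓝 (-(11 / 18))) := by
  have hid : Tendsto (fun y : ℂ => y) (𝓝[≠] (0:ℂ)) (𝓝 0) := nhdsWithin_le_nhds
  have hneg : Tendsto (fun y : ℂ => -y) (𝓝[≠] (0:ℂ)) (𝓝[≠] 0) := by
    refine tendsto_nhdsWithin_iff.mpr ⟨by simpa using hid.neg, ?_⟩
    filter_upwards [eventually_mem_nhdsWithin] with y hy
    simpa using hy
  set T : ℂ → ℂ := fun ζ => (KK ζ - 1 - 4 / 3 * ζ) / ζ ^ 2 with hT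
  have hT1 : Tendsto T (𝓝[≠] 0) (𝓝 (19 / 9)) := tendsto_KK
  have hT2 : Tendsto (fun ζ => T (-ζ)) (𝓝[≠] 0) (𝓝 (19 / 9)) := tendsto_KK.comp hneg
  -- the product M
  have hM : Tendsto (fun ζ : ℂ => (KK ζ * KK (-ζ) - 1) / ζ ^ 2) (𝓝[≠] 0) (𝓝 (22 / 9)) := by
    have h1 : Tendsto (fun ζ : ℂ => T ζ + T (-ζ) - 16 / 9 + 4 / 3 * ζ * (T (-ζ) - T ζ)
        + ζ ^ 2 * (T ζ * T (-ζ))) (𝓝[≠] 0)
        (𝓝 (19 / 9 + 19 / 9 - 16 / 9 + 4 / 3 * 0 * (19 / 9 - 19 / 9)
          + 0 ^ 2 * (19 / 9 * (19 / 9)))) :=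
      (((hT1.add hT2).sub_const _).add ((hid.const_mul _).mul (hT2.sub hT1))).add
        ((hid.pow 2).mul (hT1.mul hT2))
    have e : (19 / 9 + 19 / 9 - 16 / 9 + 4 / 3 * 0 * (19 / 9 - 19 / 9)
          + 0 ^ 2 * (19 / 9 * (19 / 9)) : ℂ) = 22 / 9 := by norm_num
    rw [e] at h1
    refine h1.congr' ?_
    filter_upwards [eventually_mem_nhdsWithin] with y hy
    have hy' : y ≠ 0 := hy
    simp only [hT]
    field_simp
    ring
  have hGc : Tendsto GG (𝓝[≠] 0) (𝓝 1) := by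
    have := (GG_diff.differentiableAt (isOpen_ball.mem_nhds (mem_ball_self one_pos))).continuousAt.tendsto
    rw [GG_zero] at this
    exact this.mono_left nhdsWithin_le_nhds
  have hMc : Tendsto (fun ζ : ℂ => KK ζ * KK (-ζ)) (𝓝[≠] 0) (𝓝 1) := by
    have h1 := (KK_diffAt (mem_ball_self one_pos)).continuousAt.tendsto
    have h2 := (KKneg_diffAt (mem_ball_self one_pos)).continuousAt.tendsto
    simp only [neg_zero] at h2
    rw [KK_zero] at h1 h2
    have := h1.mul h2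
    rw [mul_one] at this
    exact this.mono_left nhdsWithin_le_nhds
  have hlim : Tendsto (fun ζ : ℂ => -((KK ζ * KK (-ζ) - 1) / ζ ^ 2) /
      ((KK ζ * KK (-ζ)) * (GG ζ ^ 3 + GG ζ ^ 2 + GG ζ + 1))) (𝓝[≠] 0)
      (𝓝 (-(22 / 9) / (1 * (1 ^ 3 + 1 ^ 2 + 1 + 1)))) :=
    hM.neg.div (hMc.mul ((((hGc.pow 3).add (hGc.pow 2)).add hGc).add_const 1)) (by norm_num)
  have e : (-(22 / 9) / (1 * (1 ^ 3 + 1 ^ 2 + 1 + 1)) : ℂ) = -(11 / 18) := by norm_num
  rw [e] at hlim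
  refine hlim.congr' ?_
  have hb : ∀ᶠ y : ℂ in 𝓝[≠] (0:ℂ), y ∈ ball (0:ℂ) 1 :=
    nhdsWithin_le_nhds (ball_mem_nhds 0 one_pos)
  have hnz : ∀ᶠ y : ℂ in 𝓝[≠] (0:ℂ), (GG y ^ 3 + GG y ^ 2 + GG y + 1) ≠ 0 := by
    have := (((hGc.pow 3).add (hGc.pow 2)).add hGc).add_const 1
    exact this.eventually_ne (by norm_num)
  filter_upwards [eventually_mem_nhdsWithin, hb, hnz] with y hy hyb hyn
  have hy' : y ≠ 0 := hy
  have hyb' : ‖y‖ < 1 := by simpa using hyb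
  have hp := GG_pow hyb'
  have hk1 := KK_ne hyb'
  have hk2 := KK_ne (ζ := -y) (by simpa using hyb')
  have hMS : KK y * KK (-y) * (GG y ^ 3 + GG y ^ 2 + GG y + 1) ≠ 0 :=
    mul_ne_zero (mul_ne_zero hk1 hk2) hyn
  have key : -(KK y * KK (-y) - 1) =
      (GG y - 1) * (KK y * KK (-y) * (GG y ^ 3 + GG y ^ 2 + GG y + 1)) := by
    linear_combination -hp
  rw [← neg_div, key, mul_div_right_comm, mul_div_assoc, div_self hMS, mul_one]

/-! The functions `f`, `g`. -/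

/-- `K(ζ)^{-1/2}` -/
noncomputable def HH (ζ : ℂ) : ℂ := (KK ζ) ^ (-(1 / 2) : ℂ)

/-- the function `f(z) = k(z^{-2})^{-1/2}` -/
noncomputable def ff (z : ℂ) : ℂ := z * HH ((z ^ 2)⁻¹)

/-- the function `g(z) = -i f(i z)` -/
noncomputable def gg (z : ℂ) : ℂ := z * HH (-(z ^ 2)⁻¹)

lemma HH_zero : HH 0 = 1 := by simp [HH, KK_zero]

lemma HH_diff : DifferentiableOn ℂ HH (ball 0 1) := by
  intro z hz
  exact ((KK_diffAt hz).cpow_const (KK_slit (by simpa using hz))).differentiableWithinAt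

lemma HHneg_diff : DifferentiableOn ℂ (fun z => HH (-z)) (ball 0 1) := by
  intro z hz
  exact ((KKneg_diffAt hz).cpow_const (KK_slit (by simpa using hz))).differentiableWithinAt

lemma HH_sq {ζ : ℂ} : (HH ζ) ^ 2 = (KK ζ)⁻¹ := by
  unfold HH
  rw [← Complex.cpow_mul_ofNat]
  rw [show (-(1 / 2) * OfNat.ofNat 2 : ℂ) = -1 by norm_num, Complex.cpow_neg_one]

lemma HH_ne {ζ : ℂ} (h : ‖ζ‖ < 1) : HH ζ ≠ 0 := by
  intro h0
  have := HH_sq (ζ := ζ)
  rw [h0] at this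
  have hk := inv_ne_zero (KK_ne h)
  exact hk (by rw [← this]; norm_num)

lemma HH_half {ζ : ℂ} (h : ‖ζ‖ < 1) : (HH ζ) ^ (1 / 2 : ℂ) = (KK ζ) ^ (-(1 / 4) : ℂ) := by
  have hs := KK_slit h
  have harg1 := Complex.neg_pi_lt_arg (KK ζ)
  have harg2 := lt_of_le_of_ne (Complex.arg_le_pi (KK ζ)) (Complex.slitPlane_arg_ne_pi hs)
  have him : (Complex.log (KK ζ) * (-(1 / 2) : ℂ)).im = -(KK ζ).arg / 2 := by
    have : (-(1 / 2) : ℂ) = ((-(1 / 2) : ℝ) : ℂ) := by push_cast; rfl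
    rw [this, Complex.im_mul_ofReal, Complex.log_im]
    ring
  unfold HH
  rw [← Complex.cpow_mul _ (by rw [him]; linarith) (by rw [him]; linarith [Real.pi_pos])]
  congr 1
  norm_num

lemma inv_sq_norm {z : ℂ} (hz : 1 < ‖z‖) : ‖(z ^ 2)⁻¹‖ < 1 := by
  rw [norm_inv, norm_pow]
  exact inv_lt_one_of_one_lt₀ (one_lt_pow₀ hz two_ne_zero)

lemma ne_zero_of {z : ℂ} (hz : 1 < ‖z‖) : z ≠ 0 := by
  intro h; rw [h] at hz; simp at hz; linarith

lemma isOpen_ext : IsOpen {z : ℂ | 1 < ‖z‖} := isOpen_lt continuous_const continuous_norm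

lemma invsq_diffAt {z : ℂ} (hz : 1 < ‖z‖) : DifferentiableAt ℂ (fun z : ℂ => (z ^ 2)⁻¹) z :=
  (differentiableAt_id.pow 2).inv (pow_ne_zero 2 (ne_zero_of hz))

lemma ff_diff : DifferentiableOn ℂ ff {z | 1 < ‖z‖} := by
  intro z hz
  have hz' : 1 < ‖z‖ := hz
  have h1 : DifferentiableAt ℂ HH ((z ^ 2)⁻¹) :=
    HH_diff.differentiableAt (isOpen_ball.mem_nhds (by simpa using inv_sq_norm hz'))
  have h2 := h1.comp z (invsq_diffAt hz')
  exact (differentiableAt_id.mul h2).differentiableWithinAt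

lemma gg_diff : DifferentiableOn ℂ gg {z | 1 < ‖z‖} := by
  intro z hz
  have hz' : 1 < ‖z‖ := hz
  have h1 : DifferentiableAt ℂ (fun z => HH (-z)) ((z ^ 2)⁻¹) :=
    HHneg_diff.differentiableAt (isOpen_ball.mem_nhds (by simpa using inv_sq_norm hz'))
  have h2 := h1.comp z (invsq_diffAt hz')
  exact (differentiableAt_id.mul h2).differentiableWithinAt

lemma ff_sq {z : ℂ} (hz : 1 < ‖z‖) : (ff z) ^ 2 * kk ((z ^ 2)⁻¹) = 1 := by
  have hz0 := ne_zero_of hz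
  have hne : (z ^ 2)⁻¹ ≠ 0 := inv_ne_zero (pow_ne_zero 2 hz0)
  have hK := KK_of_ne hne
  have hKn := KK_ne (inv_sq_norm hz)
  have hk : kk ((z ^ 2)⁻¹) = KK ((z ^ 2)⁻¹) * (z ^ 2)⁻¹ := by
    rw [hK, div_mul_cancel₀ _ hne]
  unfold ff
  rw [mul_pow, HH_sq, hk]
  generalize KK ((z ^ 2)⁻¹) = w at hKn
  field_simp

lemma gg_sq {z : ℂ} (hz : 1 < ‖z‖) : (gg z) ^ 2 * kk (-(z ^ 2)⁻¹) = -1 := by
  have hz0 := ne_zero_of hz
  have hne : -(z ^ 2)⁻¹ ≠ 0 := neg_ne_zero.mpr (inv_ne_zero (pow_ne_zero 2 hz0))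
  have hK := KK_of_ne hne
  have hKn := KK_ne (ζ := -(z ^ 2)⁻¹) (by simpa using inv_sq_norm hz)
  have hk : kk (-(z ^ 2)⁻¹) = KK (-(z ^ 2)⁻¹) * (-(z ^ 2)⁻¹) := by
    rw [hK, div_mul_cancel₀ _ hne]
  unfold gg
  rw [mul_pow, HH_sq, hk]
  generalize KK (-(z ^ 2)⁻¹) = w at hKn
  field_simp

lemma ff_neg (z : ℂ) : ff (-z) = - ff z := by
  unfold ff; rw [neg_sq]; ring

lemma gg_neg (z : ℂ) : gg (-z) = - gg z := by
  unfold gg; rw [neg_sq]; ring

lemma ff_ne {z : ℂ} (hz : 1 < ‖z‖) : ff z ≠ 0 := by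
  intro h; have := ff_sq hz; rw [h] at this; simp at this

lemma gg_ne {z : ℂ} (hz : 1 < ‖z‖) : gg z ≠ 0 := by
  intro h; have := gg_sq hz; rw [h] at this; norm_num at this

lemma ff_inj : Set.InjOn ff {z | 1 < ‖z‖} := by
  intro a ha b hb hab
  have ha' : 1 < ‖a‖ := ha
  have hb' : 1 < ‖b‖ := hb
  have h1 := ff_sq ha'
  have h2 := ff_sq hb'
  rw [hab] at h1
  have h3 : kk ((a ^ 2)⁻¹) = kk ((b ^ 2)⁻¹) := by
    have : (ff b) ^ 2 ≠ 0 := pow_ne_zero 2 (ff_ne hb')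
    exact mul_left_cancel₀ this (h1.trans h2.symm)
  have h4 := kk_injOn (by simpa using inv_sq_norm ha') (by simpa using inv_sq_norm hb') h3
  have h5 : a ^ 2 = b ^ 2 := inv_injective h4
  rcases sq_eq_sq_iff_eq_or_eq_neg.mp h5 with h | h
  · exact h
  · exfalso
    rw [h, ff_neg] at hab
    exact ff_ne hb' (self_eq_neg.mp hab.symm)

lemma gg_inj : Set.InjOn gg {z | 1 < ‖z‖} := by
  intro a ha b hb hab
  have ha' : 1 < ‖a‖ := ha
  have hb' : 1 < ‖b‖ := hb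
  have h1 := gg_sq ha'
  have h2 := gg_sq hb'
  rw [hab] at h1
  have h3 : kk (-(a ^ 2)⁻¹) = kk (-(b ^ 2)⁻¹) := by
    have : (gg b) ^ 2 ≠ 0 := pow_ne_zero 2 (gg_ne hb')
    exact mul_left_cancel₀ this (h1.trans h2.symm)
  have h4 := kk_injOn (by simpa using inv_sq_norm ha') (by simpa using inv_sq_norm hb') h3
  have h5 : a ^ 2 = b ^ 2 := inv_injective (neg_injective h4)
  rcases sq_eq_sq_iff_eq_or_eq_neg.mp h5 with h | h
  · exact h
  · exfalso
    rw [h, gg_neg] at hab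
    exact gg_ne hb' (self_eq_neg.mp hab.symm)

lemma ff_sigma : InSigma ff (oc HH) where
  analytic := ff_diff.analyticOnNhd isOpen_ext
  univalent := ff_inj
  expansion := fun z hz => oc_hasSum HH_diff HH_zero hz

lemma gg_sigma : InSigma gg (oc (fun ζ => HH (-ζ))) where
  analytic := gg_diff.analyticOnNhd isOpen_ext
  univalent := gg_inj
  expansion := fun z hz => oc_hasSum HHneg_diff (by simp [HH_zero]) hz

lemma mean_coeff : IsMeanCoeff (1 / 2) ff gg (oc GG) := by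
  refine ⟨1, le_refl _, fun z hz => ?_⟩
  have hz0 := ne_zero_of hz
  have h1 : ff z / z = HH ((z ^ 2)⁻¹) := by unfold ff; field_simp
  have h2 : gg z / z = HH (-(z ^ 2)⁻¹) := by unfold gg; field_simp
  have e1 : ((1 - 1 / 2 : ℝ) : ℂ) = (1 / 2 : ℂ) := by push_cast; norm_num
  have e2 : ((1 / 2 : ℝ) : ℂ) = (1 / 2 : ℂ) := by push_cast; rfl
  rw [h1, h2, e1, e2, HH_half (inv_sq_norm hz), HH_half (by simpa using inv_sq_norm hz), mul_assoc]
  exact oc_hasSum GG_diff GG_zero hz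

lemma oc_zero (φ : ℂ → ℂ) : oc φ 0 = 0 := by simp [oc]

lemma oc_three : oc GG 3 = -(11 / 18) := by
  have h3 : Odd 3 := by decide
  have h := coeff_two (GG_diff.analyticAt (ball_mem_nhds 0 one_pos)) tendsto_GG
  simp only [oc, h3, if_true]
  norm_num
  rw [← h]
  ring

/-- **The area inequality fails for geometric means.**  There are `f, g` in the class `Σ`, without
zeros in `|z| > 1`, odd (so with vanishing constant term), such that for `α = 1/2` the coefficients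
`A_n` of `F = f^{1/2} g^{1/2}` satisfy `∑ n |A_n|^2 ≥ 121/108 > 1`. -/
theorem result :
    ∃ (f g : ℂ → ℂ) (b c A : ℕ → ℂ),
      InSigma f b ∧ InSigma g c ∧
      (∀ z : ℂ, 1 < ‖z‖ → f z ≠ 0) ∧ (∀ z : ℂ, 1 < ‖z‖ → g z ≠ 0) ∧
      (∀ z : ℂ, f (-z) = - f z) ∧ (∀ z : ℂ, g (-z) = - g z) ∧
      b 0 = 0 ∧ c 0 = 0 ∧
      IsMeanCoeff (1 / 2) f g A ∧
      ENNReal.ofReal (121 / 108) ≤ ∑' n : ℕ, (n : ENNReal) * ENNReal.ofReal (‖A n‖ ^ 2) := by
  refine ⟨ff, gg, _, _, _, ff_sigma, gg_sigma, fun _ hz => ff_ne hz, fun _ hz => gg_ne hz,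
    ff_neg, gg_neg, oc_zero _, oc_zero _, mean_coeff, ?_⟩
  refine le_trans ?_ (ENNReal.le_tsum 3)
  rw [oc_three]
  have : ((3 : ℕ) : ENNReal) = ENNReal.ofReal 3 := by norm_num
  rw [this, ← ENNReal.ofReal_mul (by norm_num)]
  apply ENNReal.ofReal_le_ofReal
  norm_num

end Pool.Agent.Results.MP_9f54b8_an.AreaIneqFails
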